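import Mathlib
import Pool.Agent.WormS.MainS

/-!
# The Bergman projection of `log (conj z₁)` on smooth worm domains, all angles

For every `β > π/2` there is `δ > 0` such that for every profile `η` of the smooth worm domain with
winding `β` which exceeds `1` for `|t| ≥ β - π/2 + δ`, the pair `(β, η)` is admissible and the Bergman
projection of `log (conj z₁)` is not smooth up to the boundary; more precisely some iterated
derivative of it with respect to `z₁` is unbounded.  Such profiles exist for every `β > π/2`, and
every profile becomes one after multiplication by a large constant.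
-/

open MeasureTheory Set
open scoped Real ComplexConjugate

namespace Pool.Agent.Results.MP_3c4b73_an.WormLogAllBeta

open Pool.Agent.Worm

theorem result (β : ℝ) (hβ : π / 2 < β) : ∃ δ > 0,
    (∃ η, Profile β η ∧ ∀ t, β - π / 2 + δ ≤ |t| → 1 < η t) ∧
    (∀ η, Profile β η → ∃ K₀ : ℝ, ∀ K ≥ K₀, Profile β (fun t => K * η t) ∧
      ∀ t, β - π / 2 + δ ≤ |t| → 1 < K * η t) ∧
    ∀ η, Profile β η → (∀ t, β - π / 2 + δ ≤ |t| → 1 < η t) →
      Admissible β η ∧ (∃ L, IsLogBranch η L) ∧ ∀ L, IsLogBranch η L →
        DifferentiableOn ℂ L (worm η) ∧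
        MemLp (fun z => conj (L z)) 2 (volume.restrict (worm η)) ∧
        (∃ f, IsBergmanProjection (worm η) (fun z => conj (L z)) f) ∧
        ∀ f, IsBergmanProjection (worm η) (fun z => conj (L z)) f →
          ¬ BoundedDerivs (worm η) f ∧ ¬ SmoothUpTo (worm η) f :=
  SB.main2S β hβ

end Pool.Agent.Results.MP_3c4b73_an.WormLogAllBeta
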